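import Pool.Agent.Helper82.IW.Goals

/-!
# MP_f7b570_an, packet PEX: periodic extension
-/

set_option autoImplicit false

open Complex MeasureTheory Set Filter Topology
open scoped ContDiff ComplexConjugate

namespace Pool.Agent.Helper42.IW

open Pool.Agent.Helper82.IW

noncomputable section

/-- The periodic extension. -/
def pex (U : ℂ → ℂ) (z : ℂ) : ℂ := U ⟨Int.fract z.re, Int.fract z.im⟩

theorem exists_delta (U : ℂ → ℂ) (hU : tsupport U ⊆ Ioo 0 1 ×ℂ Ioo 0 1) :
    ∃ δ : ℝ, 0 < δ ∧ ∀ z, (z.re < δ ∨ 1 - δ < z.re ∨ z.im < δ ∨ 1 - δ < z.im) → U z = 0 := by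
  have hbd : Bornology.IsBounded (tsupport U) := by
    refine Bornology.IsBounded.subset ?_ hU
    refine (Metric.isBounded_iff_subset_closedBall (0 : ℂ)).2 ⟨2, fun z hz => ?_⟩
    rw [Complex.mem_reProdIm] at hz
    rw [Metric.mem_closedBall, dist_zero_right]
    calc ‖z‖ ≤ |z.re| + |z.im| := Complex.norm_le_abs_re_add_abs_im z
      _ ≤ 2 := by
        have h1 : |z.re| ≤ 1 := abs_le.2 ⟨by linarith [hz.1.1], hz.1.2.le⟩
        have h2 : |z.im| ≤ 1 := abs_le.2 ⟨by linarith [hz.2.1], hz.2.2.le⟩
        linarith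
  have hc : IsCompact (tsupport U) := Metric.isCompact_of_isClosed_isBounded
    (isClosed_tsupport U) hbd
  rcases (tsupport U).eq_empty_or_nonempty with he | hne
  · refine ⟨1, one_pos, fun z _ => ?_⟩
    by_contra h
    have : z ∈ tsupport U := subset_tsupport U h
    rw [he] at this
    exact this
  · have hcont : ContinuousOn
        (fun z : ℂ => min (min z.re (1 - z.re)) (min z.im (1 - z.im))) (tsupport U) := by
      apply Continuous.continuousOn
      fun_prop
    obtain ⟨w, hw, hmin⟩ := hc.exists_isMinOn hne hcont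
    have hw' := hU hw
    rw [Complex.mem_reProdIm] at hw'
    refine ⟨min (min w.re (1 - w.re)) (min w.im (1 - w.im)), ?_, fun z hz => ?_⟩
    · have h1 := hw'.1.1
      have h2 := hw'.1.2
      have h3 := hw'.2.1
      have h4 := hw'.2.2
      exact lt_min (lt_min h1 (by linarith)) (lt_min h3 (by linarith))
    · by_contra h
      have hzt : z ∈ tsupport U := subset_tsupport U h
      have hle := hmin hzt
      simp only [mem_setOf_eq] at hle
      obtain ⟨δ, hδ⟩ : ∃ δ, δ = min (min w.re (1 - w.re)) (min w.im (1 - w.im)) := ⟨_, rfl⟩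
      rw [← hδ] at hle hz
      have h1 : δ ≤ z.re := hle.trans ((min_le_left _ _).trans (min_le_left _ _))
      have h2 : δ ≤ 1 - z.re := hle.trans ((min_le_left _ _).trans (min_le_right _ _))
      have h3 : δ ≤ z.im := hle.trans ((min_le_right _ _).trans (min_le_left _ _))
      have h4 : δ ≤ 1 - z.im := hle.trans ((min_le_right _ _).trans (min_le_right _ _))
      rcases hz with h | h | h | h <;> linarith

theorem fract_near (a δ : ℝ) (hδ : 0 < δ) (ha : Int.fract a = 0) :
    ∀ᶠ x in 𝓝 a, Int.fract x < δ ∨ 1 - δ < Int.fract x := by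
  have h : ∀ᶠ x in 𝓝 a, |x - a| < min δ 1 := by
    have := Metric.ball_mem_nhds a (lt_min hδ one_pos)
    filter_upwards [this] with x hx
    rwa [Metric.mem_ball, Real.dist_eq] at hx
  filter_upwards [h] with x hx
  have hx1 : |x - a| < δ := hx.trans_le (min_le_left _ _)
  have hx2 : |x - a| < 1 := hx.trans_le (min_le_right _ _)
  have haf : a = (⌊a⌋ : ℝ) := by
    have := Int.self_sub_floor a
    rw [ha] at this
    linarith
  rcases le_or_gt a x with hax | hax
  · left
    have hfl : ⌊x⌋ = ⌊a⌋ := by
      rw [Int.floor_eq_iff]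
      constructor
      · rw [← haf]; exact hax
      · rw [← haf]
        have := (abs_lt.1 hx2).2
        linarith
    rw [Int.fract, hfl, ← haf]
    exact (abs_lt.1 hx1).2
  · right
    have hfl : ⌊x⌋ = ⌊a⌋ - 1 := by
      rw [Int.floor_eq_iff]
      push_cast
      rw [← haf]
      constructor
      · have := (abs_lt.1 hx2).1
        linarith
      · linarith
    rw [Int.fract, hfl]
    push_cast
    rw [← haf]
    have := (abs_lt.1 hx1).1
    linarith

theorem floor_near (a : ℝ) (ha : Int.fract a ≠ 0) : ∀ᶠ x in 𝓝 a, ⌊x⌋ = ⌊a⌋ := by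
  have h0 : (⌊a⌋ : ℝ) < a := by
    have h1 := Int.floor_le a
    refine lt_of_le_of_ne h1 fun h => ha ?_
    rw [Int.fract]
    linarith
  have h1 : a < (⌊a⌋ : ℝ) + 1 := Int.lt_floor_add_one a
  filter_upwards [Ioo_mem_nhds h0 h1] with x hx
  rw [Int.floor_eq_iff]
  exact ⟨hx.1.le, hx.2⟩

theorem PEX : S_PEX := by
  intro U hU hs
  obtain ⟨δ, hδ, hzero⟩ := exists_delta U hs
  refine ⟨pex U, ⟨?_, ?_⟩, ?_⟩
  · rw [contDiff_iff_contDiffAt]
    intro z0
    by_cases ha : Int.fract z0.re = 0
    · have h1 : ∀ᶠ z in 𝓝 z0, pex U z = (fun _ => (0 : ℂ)) z := by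
        have h2 := Complex.continuous_re.continuousAt.eventually (fract_near z0.re δ hδ ha)
        filter_upwards [h2] with z hz
        refine hzero _ ?_
        rcases hz with h | h
        · exact Or.inl h
        · exact Or.inr (Or.inl h)
      exact contDiffAt_const.congr_of_eventuallyEq h1
    by_cases hb : Int.fract z0.im = 0
    · have h1 : ∀ᶠ z in 𝓝 z0, pex U z = (fun _ => (0 : ℂ)) z := by
        have h2 := Complex.continuous_im.continuousAt.eventually (fract_near z0.im δ hδ hb)
        filter_upwards [h2] with z hz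
        refine hzero _ ?_
        rcases hz with h | h
        · exact Or.inr (Or.inr (Or.inl h))
        · exact Or.inr (Or.inr (Or.inr h))
      exact contDiffAt_const.congr_of_eventuallyEq h1
    · have h1 := Complex.continuous_re.continuousAt.eventually (floor_near z0.re ha)
      have h2 := Complex.continuous_im.continuousAt.eventually (floor_near z0.im hb)
      have h3 : pex U =ᶠ[𝓝 z0] fun z => U (z - ⟨(⌊z0.re⌋ : ℝ), (⌊z0.im⌋ : ℝ)⟩) := by
        filter_upwards [h1, h2] with z hz1 hz2
        unfold pex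
        congr 1
        apply Complex.ext
        · simp only [Complex.sub_re, Int.fract, hz1]
        · simp only [Complex.sub_im, Int.fract, hz2]
      refine ContDiffAt.congr_of_eventuallyEq ?_ h3
      exact (hU.comp (contDiff_id.sub contDiff_const)).contDiffAt
  · intro z
    constructor
    · unfold pex
      simp only [Complex.add_re, Complex.one_re, Complex.add_im, Complex.one_im, add_zero,
        Int.fract_add_one]
    · unfold pex
      simp only [Complex.add_re, Complex.I_re, Complex.add_im, Complex.I_im, add_zero,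
        Int.fract_add_one]
  · intro z hz
    have hopen : IsOpen (Ioo (0 : ℝ) 1 ×ℂ Ioo (0 : ℝ) 1) := isOpen_Ioo.reProdIm isOpen_Ioo
    filter_upwards [hopen.mem_nhds hz] with w hw
    rw [Complex.mem_reProdIm] at hw
    unfold pex
    congr 1
    apply Complex.ext
    · exact Int.fract_eq_self.2 ⟨hw.1.1.le, hw.1.2⟩
    · exact Int.fract_eq_self.2 ⟨hw.2.1.le, hw.2.2⟩

end

end Pool.Agent.Helper42.IW
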